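import Mathlib
import Pool.Agent.H964.LF.Stm

set_option autoImplicit false

namespace Pool.Agent.H448.LF

open Pool.Agent.H964.LF
open MeasureTheory Finset
open scoped ENNReal

theorem par_add {d n : ℕ} (v w : Tor d n) : par (v + w) = par v + par w := by
  unfold par
  simp only [Pi.add_apply, map_add, Finset.sum_add_distrib]

theorem par_zt {d n : ℕ} (z : Fin d → ℤ) : par (zt n z : Tor d n) = ((∑ i, z i : ℤ) : ZMod 2) := by
  unfold par zt
  rw [Int.cast_sum]
  exact Finset.sum_congr rfl fun i _ => map_intCast _ _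

theorem par_zt_even {d n : ℕ} (z : Fin d → ℤ) (h : Even (∑ j, z j)) : par (zt n z : Tor d n) = 0 := by
  rw [par_zt]
  obtain ⟨r, hr⟩ := h
  rw [hr, Int.cast_add]
  exact CharTwo.add_self_eq_zero _

theorem par_ctr {d n : ℕ} (τ : Tor d n) (K : ℕ) (hτ : par τ = 1) (hK : 4 ∣ K) (k : Site d) :
    par (ctr τ K k) = 1 := by
  have h1 : ctr τ K k = τ + fun i => ((K * k i : ℕ) : ZMod (2 * n + 2)) := rfl
  rw [h1, par_add, hτ]
  have h2 : par (fun i => ((K * k i : ℕ) : ZMod (2 * n + 2)) : Tor d n) = 0 := by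
    unfold par
    refine Finset.sum_eq_zero fun i _ => ?_
    rw [map_natCast]
    obtain ⟨c, hc⟩ := hK
    rw [ZMod.natCast_eq_zero_iff]
    exact ⟨2 * c * k i, by rw [hc]; ring⟩
  rw [h2, add_zero]

theorem Sk_sub_od {d n : ℕ} (τ : Tor d n) (K J : ℕ) (hτ : par τ = 1) (hK : 4 ∣ K) :
    Sk τ K J ⊆ od d n := by
  intro v hv
  unfold Sk at hv
  obtain ⟨k, _, rfl⟩ := Finset.mem_image.mp hv
  unfold od
  exact Finset.mem_filter.mpr ⟨Finset.mem_univ _, par_ctr τ K hτ hK k⟩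

theorem Gd_odd {d n : ℕ} (τ : Tor d n) (K : ℕ) (hτ : par τ = 1) (hK : 4 ∣ K) (k : Site d)
    (δ δ0 : ℝ) (k0 R : ℕ) : dodd (Gd τ K k δ δ0 k0 R) := by
  have hp : ∀ z : Fin d → ℤ, Even (∑ j, z j) → par (ctr τ K k + zt n z) = 1 := by
    intro z hz
    rw [par_add, par_ctr τ K hτ hK k, par_zt_even z hz, add_zero]
  intro x y hxy
  unfold Gd
  simp only [Set.mem_setOf_eq]
  constructor
  · intro h z z' h1 h2 h3 h4
    have := h z z' h1 h2 h3 h4
    rw [hxy _ (hp z h3), hxy _ (hp z' h4)] at this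
    exact this
  · intro h z z' h1 h2 h3 h4
    have := h z z' h1 h2 h3 h4
    rw [← hxy _ (hp z h3), ← hxy _ (hp z' h4)] at this
    exact this

theorem Gd_meas {d n : ℕ} (τ : Tor d n) (K : ℕ) (k : Site d)
    (δ δ0 : ℝ) (k0 R : ℕ) : MeasurableSet (Gd τ K k δ δ0 k0 R) := by
  unfold Gd
  refine measurableSet_setOf.mpr ?_
  refine Measurable.forall fun z => Measurable.forall fun z' => ?_
  refine Measurable.imp measurable_const (Measurable.imp measurable_const
    (Measurable.imp measurable_const (Measurable.imp measurable_const ?_)))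
  have hm : ∀ c : ℝ, Measurable fun x : Tor d n → ℝ =>
      |x (ctr τ K k + zt n z) - x (ctr τ K k + zt n z')| ≤ c := by
    intro c
    refine measurableSet_setOf.mp ?_
    have h1 : Measurable fun x : Tor d n → ℝ =>
        |x (ctr τ K k + zt n z) - x (ctr τ K k + zt n z')| := by fun_prop
    exact measurableSet_le h1 measurable_const
  exact Measurable.and (hm _) (Measurable.imp measurable_const (hm _))

/-- a function of the odd coordinates -/
def fodd {d n : ℕ} (f : (Tor d n → ℝ) → ℝ≥0∞) : Prop :=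
  ∀ x y : Tor d n → ℝ, (∀ v, par v = 1 → x v = y v) → f x = f y

theorem mg_odd {d n : ℕ} (s : Finset (Tor d n)) (f : (Tor d n → ℝ) → ℝ≥0∞) (hf : fodd f) :
    fodd (mg s f) := by
  intro x y hxy
  show lmarginal _ s f x = lmarginal _ s f y
  unfold lmarginal
  refine lintegral_congr fun z => ?_
  refine hf _ _ fun v hv => ?_
  unfold Function.updateFinset
  split_ifs
  · rfl
  · exact hxy v hv

theorem ind_odd {d n : ℕ} (G : Set (Tor d n → ℝ)) (f : (Tor d n → ℝ) → ℝ≥0∞) (hG : dodd G)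
    (hf : fodd f) : fodd (G.indicator f) := by
  intro x y hxy
  by_cases hx : x ∈ G
  · rw [Set.indicator_of_mem hx, Set.indicator_of_mem ((hG x y hxy).mp hx)]
    exact hf x y hxy
  · rw [Set.indicator_of_notMem hx, Set.indicator_of_notMem fun h => hx ((hG x y hxy).mpr h)]

theorem half_aux (a b : ℝ≥0∞) (h : a < (1 / 2 : ℝ≥0∞) * (a + b)) : (1 / 2 : ℝ≥0∞) * (a + b) ≤ b := by
  by_cases hb : b = ⊤
  · rw [hb]; exact le_top
  · by_cases hab : b ≤ a
    · exfalso
      have h1 : (1 / 2 : ℝ≥0∞) * (a + b) ≤ (1 / 2 : ℝ≥0∞) * (a + a) := by gcongr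
      have h2 : (1 / 2 : ℝ≥0∞) * (a + a) = a := by
        rw [← two_mul, ← mul_assoc, one_div, ENNReal.inv_mul_cancel (by norm_num) (by norm_num),
          one_mul]
      rw [h2] at h1
      exact absurd (h.trans_le h1) (lt_irrefl _)
    · push Not at hab
      have h1 : (1 / 2 : ℝ≥0∞) * (a + b) ≤ (1 / 2 : ℝ≥0∞) * (b + b) := by gcongr
      have h2 : (1 / 2 : ℝ≥0∞) * (b + b) = b := by
        rw [← two_mul, ← mul_assoc, one_div, ENNReal.inv_mul_cancel (by norm_num) (by norm_num),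
          one_mul]
      exact h1.trans h2.le

/-- the event that all sites of `I` are bad -/
theorem bad_iff {d n : ℕ} (p τ : Tor d n) (K J : ℕ) (δ δ0 : ℝ) (k0 R : ℕ) (I : Finset (Site d))
    (hI : I ⊆ Grid d J) (x : Tor d n → ℝ) :
    x ∈ {ψ | I ⊆ Bd p τ K J δ δ0 k0 R ψ} ↔ ∀ k ∈ I,
      mg (Yk τ K J) ((Gd τ K k δ δ0 k0 R).indicator (FF p)) x <
      (1 / 2 : ℝ≥0∞) * mg (Yk τ K J) (FF p) x := by
  classical
  simp only [Set.mem_setOf_eq]
  unfold Bd
  constructor
  · intro h k hk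
    exact (Finset.mem_filter.mp (h hk)).2
  · intro h k hk
    exact Finset.mem_filter.mpr ⟨hI hk, h k hk⟩

theorem bad_meas {d n : ℕ} (p τ : Tor d n) (K J : ℕ) (δ δ0 : ℝ) (k0 R : ℕ) (I : Finset (Site d))
    (hI : I ⊆ Grid d J) (hF : Measurable (FF p)) :
    MeasurableSet {ψ | I ⊆ Bd p τ K J δ δ0 k0 R ψ} := by
  have h1 : {ψ | I ⊆ Bd p τ K J δ δ0 k0 R ψ} = ⋂ k ∈ I,
      {x | mg (Yk τ K J) ((Gd τ K k δ δ0 k0 R).indicator (FF p)) x <
      (1 / 2 : ℝ≥0∞) * mg (Yk τ K J) (FF p) x} := by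
    ext x
    rw [bad_iff p τ K J δ δ0 k0 R I hI x]
    simp only [Set.mem_iInter, Set.mem_setOf_eq]
  rw [h1]
  refine Finset.measurableSet_biInter I fun k _ => ?_
  refine measurableSet_lt ?_ ?_
  · exact Measurable.lmarginal _ (hF.indicator (Gd_meas τ K k δ δ0 k0 R))
  · exact Measurable.const_mul (Measurable.lmarginal _ hF) _

theorem bad_congr {d n : ℕ} (p τ : Tor d n) (K J : ℕ) (δ δ0 : ℝ) (k0 R : ℕ) (I : Finset (Site d))
    (hI : I ⊆ Grid d J) (x y : Tor d n → ℝ) (h : ∀ v ∉ Yk τ K J, x v = y v) :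
    x ∈ {ψ | I ⊆ Bd p τ K J δ δ0 k0 R ψ} ↔ y ∈ {ψ | I ⊆ Bd p τ K J δ δ0 k0 R ψ} := by
  rw [bad_iff p τ K J δ δ0 k0 R I hI x, bad_iff p τ K J δ δ0 k0 R I hI y]
  have e : ∀ f : (Tor d n → ℝ) → ℝ≥0∞, mg (Yk τ K J) f x = mg (Yk τ K J) f y := by
    intro f
    exact lmarginal_congr _ f h
  simp only [e]

theorem bad_odd {d n : ℕ} (p τ : Tor d n) (K J : ℕ) (δ δ0 : ℝ) (k0 R : ℕ) (I : Finset (Site d))
    (hI : I ⊆ Grid d J) (hτ : par τ = 1) (hK : 4 ∣ K) (hF : fodd (FF p)) :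
    dodd {ψ | I ⊆ Bd p τ K J δ δ0 k0 R ψ} := by
  intro x y hxy
  rw [bad_iff p τ K J δ δ0 k0 R I hI x, bad_iff p τ K J δ δ0 k0 R I hI y]
  have e1 : mg (Yk τ K J) (FF p) x = mg (Yk τ K J) (FF p) y := mg_odd _ _ hF x y hxy
  have e2 : ∀ k, mg (Yk τ K J) ((Gd τ K k δ δ0 k0 R).indicator (FF p)) x =
      mg (Yk τ K J) ((Gd τ K k δ δ0 k0 R).indicator (FF p)) y := fun k =>
    mg_odd _ _ (ind_odd _ _ (Gd_odd τ K hτ hK k δ δ0 k0 R) hF) x y hxy
  simp only [e1, e2]

theorem mg_split {d n : ℕ} (τ : Tor d n) (K J : ℕ) (hτ : par τ = 1) (hK : 4 ∣ K)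
    (f : (Tor d n → ℝ) → ℝ≥0∞) (hf : Measurable f) (x : Tor d n → ℝ) :
    mg (od d n) f x = mg (Sk τ K J) (mg (Yk τ K J) f) x := by
  have h1 : od d n = Sk τ K J ∪ Yk τ K J := by
    unfold Yk
    rw [Finset.union_sdiff_of_subset (Sk_sub_od τ K J hτ hK)]
  have h2 : Disjoint (Sk τ K J) (Yk τ K J) := by
    unfold Yk
    exact Finset.disjoint_sdiff
  show lmarginal _ (od d n) f x = lmarginal _ (Sk τ K J) (lmarginal _ (Yk τ K J) f) x
  rw [h1, lmarginal_union _ f hf h2]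

/-- the key inequality -/
theorem key {d n : ℕ} (p τ : Tor d n) (K J : ℕ) (δ δ0 : ℝ) (k0 R : ℕ) (I : Finset (Site d))
    (hd : 1 ≤ d) (hB : S_BAS) (hD : S_DEC) (hτ : par τ = 1) (hK : 4 ∣ K) (hp : p ∈ Sk τ K J)
    (hI : I ⊆ Grid d J) (k : Site d) (hk : k ∈ I) :
    (1 / 2 : ℝ≥0∞) * vl p {ψ | I ⊆ Bd p τ K J δ δ0 k0 R ψ} ≤
      vl p ({ψ | I ⊆ Bd p τ K J δ δ0 k0 R ψ} ∩ (Gd τ K k δ δ0 k0 R)ᶜ) := by
  obtain ⟨_, _, hFm, _, _, hFo⟩ := hB d n hd
  have hpp : par p = 1 := by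
    have := Sk_sub_od τ K J hτ hK hp
    unfold od at this
    exact (Finset.mem_filter.mp this).2
  have hF : Measurable (FF p) := hFm p
  have hFodd : fodd (FF p) := fun x y h => hFo p x y hpp h
  set E : Set (Tor d n → ℝ) := {ψ | I ⊆ Bd p τ K J δ δ0 k0 R ψ} with hE
  have hEm : MeasurableSet E := bad_meas p τ K J δ δ0 k0 R I hI hF
  have hEo : dodd E := bad_odd p τ K J δ δ0 k0 R I hI hτ hK hFodd
  have hGm : MeasurableSet (Gd τ K k δ δ0 k0 R) := Gd_meas τ K k δ δ0 k0 R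
  have hGo : dodd (Gd τ K k δ δ0 k0 R) := Gd_odd τ K hτ hK k δ δ0 k0 R
  have hEGo : dodd (E ∩ (Gd τ K k δ δ0 k0 R)ᶜ) := by
    intro x y hxy
    rw [Set.mem_inter_iff, Set.mem_inter_iff, Set.mem_compl_iff, Set.mem_compl_iff,
      hEo x y hxy, hGo x y hxy]
  rw [hD d n p E 0 hd hpp hEm hEo, hD d n p _ 0 hd hpp (hEm.inter hGm.compl) hEGo,
    mg_split τ K J hτ hK _ (hF.indicator hEm), mg_split τ K J hτ hK _
      (hF.indicator (hEm.inter hGm.compl))]
  have hpt : ∀ x : Tor d n → ℝ, (1 / 2 : ℝ≥0∞) * mg (Yk τ K J) (E.indicator (FF p)) x ≤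
      mg (Yk τ K J) ((E ∩ (Gd τ K k δ δ0 k0 R)ᶜ).indicator (FF p)) x := by
    intro x
    have hupd : ∀ y : (i : Yk τ K J) → ℝ, (Function.updateFinset x (Yk τ K J) y ∈ E ↔ x ∈ E) := by
      intro y
      refine bad_congr p τ K J δ δ0 k0 R I hI _ _ fun v hv => ?_
      unfold Function.updateFinset
      rw [dif_neg hv]
    by_cases hx : x ∈ E
    · have h1 : mg (Yk τ K J) (E.indicator (FF p)) x = mg (Yk τ K J) (FF p) x := by
        show lmarginal _ _ _ _ = lmarginal _ _ _ _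
        unfold lmarginal
        refine lintegral_congr fun y => ?_
        rw [Set.indicator_of_mem ((hupd y).mpr hx)]
      have h2 : mg (Yk τ K J) ((E ∩ (Gd τ K k δ δ0 k0 R)ᶜ).indicator (FF p)) x =
          mg (Yk τ K J) ((Gd τ K k δ δ0 k0 R)ᶜ.indicator (FF p)) x := by
        show lmarginal _ _ _ _ = lmarginal _ _ _ _
        unfold lmarginal
        refine lintegral_congr fun y => ?_
        rw [Set.inter_comm, ← Set.indicator_indicator]
        by_cases hg : Function.updateFinset x (Yk τ K J) y ∈ (Gd τ K k δ δ0 k0 R)ᶜ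
        · rw [Set.indicator_of_mem hg, Set.indicator_of_mem hg,
            Set.indicator_of_mem ((hupd y).mpr hx)]
        · rw [Set.indicator_of_notMem hg, Set.indicator_of_notMem hg]
      have h3 : mg (Yk τ K J) (FF p) x =
          mg (Yk τ K J) ((Gd τ K k δ δ0 k0 R).indicator (FF p)) x +
          mg (Yk τ K J) ((Gd τ K k δ δ0 k0 R)ᶜ.indicator (FF p)) x := by
        show lmarginal _ _ _ _ = lmarginal _ _ _ _ + lmarginal _ _ _ _
        unfold lmarginal
        rw [← lintegral_add_left]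
        · refine lintegral_congr fun y => ?_
          rw [← Pi.add_apply ((Gd τ K k δ δ0 k0 R).indicator (FF p)),
            Set.indicator_self_add_compl]
        · exact (hF.indicator hGm).comp measurable_updateFinset
      rw [h1, h2, h3]
      refine half_aux _ _ ?_
      rw [← h3]
      exact (bad_iff p τ K J δ δ0 k0 R I hI x).mp hx k hk
    · have h1 : mg (Yk τ K J) (E.indicator (FF p)) x = 0 := by
        show lmarginal _ _ _ _ = 0
        unfold lmarginal
        rw [← lintegral_zero]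
        refine lintegral_congr fun y => ?_
        rw [Set.indicator_of_notMem fun h => hx ((hupd y).mp h)]
      rw [h1, mul_zero]
      exact bot_le
  have hmono := lmarginal_mono (μ := fun _ : Tor d n => (volume : Measure ℝ))
    (s := Sk τ K J) (fun x => hpt x) (0 : Tor d n → ℝ)
  refine le_trans (le_of_eq ?_) hmono
  show (1 / 2 : ℝ≥0∞) * lmarginal _ _ _ _ = lmarginal _ _ _ _
  unfold lmarginal
  rw [lintegral_const_mul' _ _ (by norm_num)]

/-- the pinned Lipschitz functions -/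
def QL {d n : ℕ} (p : Tor d n) : Set (Tor d n → ℝ) := {ψ | Lip ψ ∧ |ψ p| ≤ 1 / 2}

theorem QL_meas {d n : ℕ} (p : Tor d n) : MeasurableSet (QL p) := by
  unfold QL Lip
  refine measurableSet_setOf.mpr ?_
  refine Measurable.and (Measurable.forall fun x => Measurable.forall fun i => ?_) ?_
  · refine measurableSet_setOf.mp ?_
    have h1 : Measurable fun ψ : Tor d n → ℝ => |ψ (x + Pi.single i 1) - ψ x| := by fun_prop
    exact measurableSet_le h1 measurable_const
  · refine measurableSet_setOf.mp ?_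
    have h1 : Measurable fun ψ : Tor d n → ℝ => |ψ p| := by fun_prop
    exact measurableSet_le h1 measurable_const

theorem vl_eq {d n : ℕ} (p : Tor d n) (E : Set (Tor d n → ℝ)) :
    vl p E = (volume.restrict (QL p)) E := by
  rw [Measure.restrict_apply' (QL_meas p)]
  unfold vl QL
  congr 1
  ext ψ
  constructor
  · rintro ⟨h1, h2, h3⟩; exact ⟨h3, h1, h2⟩
  · rintro ⟨h3, h1, h2⟩; exact ⟨h1, h2, h3⟩

open Classical in
/-- a counting inequality -/
theorem count_ineq {X κ : Type} [MeasurableSpace X] (μ : Measure X) (I : Finset κ)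
    (E : Set X) (G : κ → Set X) (hE : MeasurableSet E) (hG : ∀ k, MeasurableSet (G k))
    (hfin : μ Set.univ ≠ ⊤) (h0 : I.Nonempty)
    (hk : ∀ k ∈ I, (1 / 2 : ℝ≥0∞) * μ E ≤ μ (E ∩ (G k)ᶜ)) :
    μ E ≤ 4 * ∑ I' ∈ I.powerset.filter (fun I' => I.card ≤ 4 * I'.card),
      μ {x | ∀ k ∈ I', x ∉ G k} := by
  set S := I.powerset.filter (fun I' => I.card ≤ 4 * I'.card) with hS
  set A : Set X := ⋃ I' ∈ S, {x | ∀ k ∈ I', x ∉ G k} with hA
  have hset : ∀ I' : Finset κ, MeasurableSet {x | ∀ k ∈ I', x ∉ G k} := by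
    intro I'
    have : {x | ∀ k ∈ I', x ∉ G k} = ⋂ k ∈ I', (G k)ᶜ := by
      ext x; simp
    rw [this]
    exact Finset.measurableSet_biInter I' fun k _ => (hG k).compl
  have hAm : MeasurableSet A := Finset.measurableSet_biUnion S fun I' _ => hset I'
  have hEfin : μ E ≠ ⊤ := ne_top_of_le_ne_top hfin (measure_mono (Set.subset_univ E))
  have hcard : (0 : ℝ≥0∞) < I.card := by
    exact_mod_cast Finset.card_pos.mpr h0
  -- pointwise
  have hpt : ∀ x, ∑ k ∈ I, (E ∩ (G k)ᶜ).indicator (fun _ => (1 : ℝ≥0∞)) x ≤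
      (E ∩ A).indicator (fun _ => (I.card : ℝ≥0∞)) x +
      E.indicator (fun _ => (I.card : ℝ≥0∞) / 4) x := by
    intro x
    by_cases hx : x ∈ E
    · have h1 : ∑ k ∈ I, (E ∩ (G k)ᶜ).indicator (fun _ => (1 : ℝ≥0∞)) x =
          ((I.filter fun k => x ∉ G k).card : ℝ≥0∞) := by
        rw [Finset.card_filter, Nat.cast_sum]
        refine Finset.sum_congr rfl fun k _ => ?_
        by_cases hg : x ∉ G k
        · rw [Set.indicator_of_mem (show x ∈ E ∩ (G k)ᶜ from ⟨hx, hg⟩), if_pos hg, Nat.cast_one]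
        · rw [Set.indicator_of_notMem (fun h => hg h.2), if_neg hg, Nat.cast_zero]
      rw [h1, Set.indicator_of_mem hx]
      by_cases hxA : x ∈ A
      · rw [Set.indicator_of_mem (show x ∈ E ∩ A from ⟨hx, hxA⟩)]
        refine le_trans ?_ le_self_add
        exact_mod_cast Finset.card_filter_le I _
      · refine le_trans ?_ le_add_self
        have h2 : 4 * (I.filter fun k => x ∉ G k).card ≤ I.card := by
          by_contra hcon
          push Not at hcon
          apply hxA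
          rw [hA, Set.mem_iUnion₂]
          refine ⟨I.filter fun k => x ∉ G k, ?_, ?_⟩
          · exact Finset.mem_filter.mpr ⟨Finset.mem_powerset.mpr (Finset.filter_subset _ _),
              hcon.le⟩
          · intro k hk
            exact (Finset.mem_filter.mp hk).2
        rw [ENNReal.le_div_iff_mul_le (Or.inl (by norm_num)) (Or.inl (by norm_num)), mul_comm]
        exact_mod_cast h2
    · have h1 : ∑ k ∈ I, (E ∩ (G k)ᶜ).indicator (fun _ => (1 : ℝ≥0∞)) x = 0 := by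
        refine Finset.sum_eq_zero fun k _ => ?_
        rw [Set.indicator_of_notMem (fun h => hx h.1)]
      rw [h1]
      exact bot_le
  have hint : ∑ k ∈ I, μ (E ∩ (G k)ᶜ) ≤ (I.card : ℝ≥0∞) * μ (E ∩ A) +
      (I.card : ℝ≥0∞) / 4 * μ E := by
    have h1 := lintegral_mono (μ := μ) hpt
    rw [lintegral_finsetSum] at h1
    · rw [lintegral_add_left] at h1
      · rw [lintegral_indicator_const (hE.inter hAm), lintegral_indicator_const hE] at h1
        refine le_trans (le_of_eq ?_) h1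
        refine Finset.sum_congr rfl fun k _ => ?_
        rw [lintegral_indicator_const (hE.inter (hG k).compl), one_mul]
      · exact measurable_const.indicator (hE.inter hAm)
    · intro k _
      exact measurable_const.indicator (hE.inter (hG k).compl)
  have hlow : (I.card : ℝ≥0∞) * ((1 / 2 : ℝ≥0∞) * μ E) ≤ ∑ k ∈ I, μ (E ∩ (G k)ᶜ) := by
    rw [← nsmul_eq_mul, ← Finset.sum_const]
    exact Finset.sum_le_sum hk
  have hAle : μ (E ∩ A) ≤ ∑ I' ∈ S, μ {x | ∀ k ∈ I', x ∉ G k} :=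
    (measure_mono Set.inter_subset_right).trans (measure_biUnion_finset_le S _)
  have hAfin : μ (E ∩ A) ≠ ⊤ := ne_top_of_le_ne_top hfin (measure_mono (Set.subset_univ _))
  -- to the reals
  have hmain : μ E ≤ 4 * μ (E ∩ A) := by
    have h1 := hlow.trans hint
    rw [← ENNReal.ofReal_toReal hEfin, ← ENNReal.ofReal_toReal hAfin] at h1 ⊢
    set a := (μ E).toReal with ha
    set b := (μ (E ∩ A)).toReal with hb
    have ha0 : 0 ≤ a := ENNReal.toReal_nonneg
    have hb0 : 0 ≤ b := ENNReal.toReal_nonneg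
    have hc0 : (0 : ℝ) < I.card := by exact_mod_cast Finset.card_pos.mpr h0
    have e1 : (I.card : ℝ≥0∞) * ((1 / 2 : ℝ≥0∞) * ENNReal.ofReal a) =
        ENNReal.ofReal ((I.card : ℝ) * (1 / 2 * a)) := by
      rw [ENNReal.ofReal_mul (by positivity), ENNReal.ofReal_mul (by norm_num),
        ENNReal.ofReal_natCast, ENNReal.ofReal_div_of_pos (by norm_num), ENNReal.ofReal_one,
        ENNReal.ofReal_ofNat]
    have e2 : (I.card : ℝ≥0∞) * ENNReal.ofReal b + (I.card : ℝ≥0∞) / 4 * ENNReal.ofReal a =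
        ENNReal.ofReal ((I.card : ℝ) * b + (I.card : ℝ) / 4 * a) := by
      rw [ENNReal.ofReal_add (by positivity) (by positivity), ENNReal.ofReal_mul (by positivity),
        ENNReal.ofReal_mul (by positivity), ENNReal.ofReal_natCast,
        ENNReal.ofReal_div_of_pos (by norm_num), ENNReal.ofReal_natCast, ENNReal.ofReal_ofNat]
    rw [e1, e2, ENNReal.ofReal_le_ofReal_iff (by positivity)] at h1
    have e3 : (4 : ℝ≥0∞) * ENNReal.ofReal b = ENNReal.ofReal (4 * b) := by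
      rw [ENNReal.ofReal_mul (by norm_num), ENNReal.ofReal_ofNat]
    rw [e3, ENNReal.ofReal_le_ofReal_iff (by positivity)]
    have h2 : (I.card : ℝ) * (a / 4) ≤ (I.card : ℝ) * b := by nlinarith
    have h3 := le_of_mul_le_mul_left h2 hc0
    linarith
  exact hmain.trans (by gcongr)

theorem t_BB : S_BAS → S_DEC → S_GP → S_BB := by
  classical
  intro hB hD hG d hd
  obtain ⟨δ0, hδ0, hδ0', H⟩ := hG d hd
  refine ⟨δ0, hδ0, hδ0', fun ε hε => ?_⟩
  set η : ℝ := min (ε / 8) 1 with hη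
  have hη0 : 0 < η := lt_min (by linarith) one_pos
  have hη1 : η ≤ 1 := min_le_right _ _
  have hηε : 8 * η ≤ ε := by have := min_le_left (ε / 8) 1; linarith
  obtain ⟨K0, R, δ, h4, h16, hKd, hRK, hδ, hδ', hmain⟩ := H (η ^ 4) (by positivity)
  refine ⟨K0, R, δ, h4, h16, hKd, hRK, hδ, hδ', ?_⟩
  intro n K J p τ I hconf hK0 hK1 hp hI
  by_cases hI0 : I.Nonempty
  swap
  · rw [Finset.not_nonempty_iff_eq_empty.mp hI0, Finset.card_empty, pow_zero, ENNReal.ofReal_one,
      one_mul]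
    rw [vl_eq, vl_eq]
    exact measure_mono (Set.subset_univ _)
  by_cases hfin : vl p Set.univ = ⊤
  · rw [hfin, ENNReal.mul_top]
    · exact le_top
    · rw [Ne, ENNReal.ofReal_eq_zero, not_le]; positivity
  have hc := count_ineq (volume.restrict (QL p)) I {ψ | I ⊆ Bd p τ K J δ δ0 K0 R ψ}
    (fun k => Gd τ K k δ δ0 K0 R)
    (bad_meas p τ K J δ δ0 K0 R I hI ((hB d n hd).2.2.1 p))
    (fun k => Gd_meas τ K k δ δ0 K0 R) (by rw [← vl_eq]; exact hfin) hI0
    (fun k hk => by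
      rw [← vl_eq, ← vl_eq]
      exact key p τ K J δ δ0 K0 R I hd hB hD hconf.hτ hconf.hK hp hI k hk)
  rw [← vl_eq] at hc
  refine hc.trans ?_
  have hterm : ∀ I' ∈ I.powerset.filter (fun I' => I.card ≤ 4 * I'.card),
      (volume.restrict (QL p)) {ψ | ∀ k ∈ I', ψ ∉ Gd τ K k δ δ0 K0 R} ≤
      ENNReal.ofReal (η ^ I.card) * vl p Set.univ := by
    intro I' hI'
    obtain ⟨hs, hle⟩ := Finset.mem_filter.mp hI'
    rw [← vl_eq]
    refine (hmain n K J p τ I' hconf hK0 hK1 ((Finset.mem_powerset.mp hs).trans hI)).trans ?_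
    gcongr
    rw [← pow_mul]
    exact pow_le_pow_of_le_one hη0.le hη1 hle
  have hsum : ∑ I' ∈ I.powerset.filter (fun I' => I.card ≤ 4 * I'.card),
      (volume.restrict (QL p)) {ψ | ∀ k ∈ I', ψ ∉ Gd τ K k δ δ0 K0 R} ≤
      (2 : ℝ≥0∞) ^ I.card * (ENNReal.ofReal (η ^ I.card) * vl p Set.univ) := by
    refine (Finset.sum_le_sum hterm).trans ?_
    rw [Finset.sum_const, nsmul_eq_mul]
    gcongr
    have h1 : (I.powerset.filter (fun I' => I.card ≤ 4 * I'.card)).card ≤ 2 ^ I.card := by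
      rw [← Finset.card_powerset]
      exact Finset.card_filter_le _ _
    exact_mod_cast h1
  have hfinal : (4 : ℝ≥0∞) * ((2 : ℝ≥0∞) ^ I.card * ENNReal.ofReal (η ^ I.card)) ≤
      ENNReal.ofReal (ε ^ I.card) := by
    have e1 : (4 : ℝ≥0∞) * ((2 : ℝ≥0∞) ^ I.card * ENNReal.ofReal (η ^ I.card)) =
        ENNReal.ofReal (4 * (2 ^ I.card * η ^ I.card)) := by
      rw [ENNReal.ofReal_mul (by norm_num), ENNReal.ofReal_mul (by positivity),
        ENNReal.ofReal_ofNat, ENNReal.ofReal_pow (show (0 : ℝ) ≤ 2 by norm_num) I.card,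
        ENNReal.ofReal_ofNat]
    rw [e1]
    apply ENNReal.ofReal_le_ofReal
    have hc1 : 1 ≤ I.card := Finset.card_pos.mpr hI0
    have h4c : (4 : ℝ) ≤ 4 ^ I.card := by
      calc (4 : ℝ) = 4 ^ 1 := (pow_one _).symm
        _ ≤ 4 ^ I.card := pow_le_pow_right₀ (by norm_num) hc1
    calc (4 : ℝ) * (2 ^ I.card * η ^ I.card) ≤ 4 ^ I.card * (2 ^ I.card * η ^ I.card) := by
          gcongr
      _ = (8 * η) ^ I.card := by
          rw [← mul_pow, ← mul_pow]; congr 1; ring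
      _ ≤ ε ^ I.card := pow_le_pow_left₀ (by positivity) hηε _
  calc 4 * ∑ I' ∈ I.powerset.filter (fun I' => I.card ≤ 4 * I'.card),
      (volume.restrict (QL p)) {ψ | ∀ k ∈ I', ψ ∉ Gd τ K k δ δ0 K0 R}
      ≤ 4 * ((2 : ℝ≥0∞) ^ I.card * (ENNReal.ofReal (η ^ I.card) * vl p Set.univ)) := by gcongr
    _ = (4 * ((2 : ℝ≥0∞) ^ I.card * ENNReal.ofReal (η ^ I.card))) * vl p Set.univ := by ring
    _ ≤ ENNReal.ofReal (ε ^ I.card) * vl p Set.univ := by gcongr

end Pool.Agent.H448.LF
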