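import Mathlib
import Pool.Agent.H964.LF.Stm

set_option autoImplicit false

namespace Pool.Agent.H448.LF

open Pool.Agent.H964.LF
open Finset

/-- edge variation in direction `j` -/
noncomputable def eg {d : ℕ} (h : (Fin d → Bool) → ℝ) (j : Fin d) (η : Fin d → Bool) : ℝ :=
  if η j = false then |h (Function.update η j true) - h η| else 0

theorem eg_nonneg {d : ℕ} (h : (Fin d → Bool) → ℝ) (j : Fin d) (η : Fin d → Bool) :
    0 ≤ eg h j η := by
  unfold eg; split_ifs
  · exact abs_nonneg _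
  · exact le_refl _

theorem one_step {d : ℕ} (h : (Fin d → Bool) → ℝ) (j : Fin d) (ε : Fin d → Bool) (b : Bool) :
    |h ε - h (Function.update ε j b)| ≤ ∑ η, eg h j η := by
  by_cases hb : ε j = b
  · have : Function.update ε j b = ε := by rw [← hb]; exact Function.update_eq_self j ε
    rw [this, sub_self, abs_zero]
    exact Finset.sum_nonneg fun η _ => eg_nonneg h j η
  · cases b with
    | true =>
      have h0 : ε j = false := by
        cases hε : ε j with
        | true => exact absurd hε hb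
        | false => rfl
      have h1 : |h ε - h (Function.update ε j true)| = eg h j ε := by
        unfold eg; rw [if_pos h0, abs_sub_comm]
      rw [h1]
      exact Finset.single_le_sum (f := fun η => eg h j η) (fun η _ => eg_nonneg h j η)
        (Finset.mem_univ ε)
    | false =>
      have h0 : ε j = true := by
        cases hε : ε j with
        | true => rfl
        | false => exact absurd hε hb
      have h2 : Function.update (Function.update ε j false) j true = ε := by
        rw [Function.update_idem, ← h0]; exact Function.update_eq_self j ε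
      have h1 : |h ε - h (Function.update ε j false)| = eg h j (Function.update ε j false) := by
        unfold eg
        rw [if_pos (by rw [Function.update_self]), h2]
      rw [h1]
      exact Finset.single_le_sum (f := fun η => eg h j η) (fun η _ => eg_nonneg h j η)
        (Finset.mem_univ _)

theorem path_bound {d : ℕ} (h : (Fin d → Bool) → ℝ) (s : Finset (Fin d)) :
    ∀ ε ε' : Fin d → Bool, (∀ i ∉ s, ε i = ε' i) → |h ε - h ε'| ≤ ∑ j ∈ s, ∑ η, eg h j η := by
  induction s using Finset.induction_on with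
  | empty =>
    intro ε ε' he
    have : ε = ε' := funext fun i => he i (Finset.notMem_empty i)
    rw [this, sub_self, abs_zero, Finset.sum_empty]
  | insert j s hj ih =>
    intro ε ε' he
    rw [Finset.sum_insert hj]
    have h1 := one_step h j ε (ε' j)
    have h2 := ih (Function.update ε j (ε' j)) ε' (by
      intro i hi
      by_cases hij : i = j
      · subst hij; rw [Function.update_self]
      · rw [Function.update_of_ne hij]
        exact he i (by
          intro hm
          rcases Finset.mem_insert.mp hm with h | h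
          · exact hij h
          · exact hi h))
    have h3 : |h ε - h ε'| ≤ |h ε - h (Function.update ε j (ε' j))| +
        |h (Function.update ε j (ε' j)) - h ε'| := abs_sub_le _ _ _
    linarith

/-- total variation over the cube -/
noncomputable def cubeV {d : ℕ} (h : (Fin d → Bool) → ℝ) : ℝ := ∑ η, ∑ j, eg h j η

theorem cube_bound {d : ℕ} (h : (Fin d → Bool) → ℝ) (ε ε' : Fin d → Bool) :
    |h ε - h ε'| ≤ cubeV h := by
  unfold cubeV
  rw [Finset.sum_comm]
  exact path_bound h Finset.univ ε ε' (fun i hi => absurd (Finset.mem_univ i) hi)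

theorem mem_cells {d : ℕ} (J ℓ m : ℕ) (k q : Site d) :
    q ∈ cells J ℓ m k ↔ (∀ i, q i < 2 ^ (J - ℓ)) ∧ ∀ i, q i / 2 ^ (m - ℓ) = k i / 2 ^ m := by
  unfold cells Grid
  rw [Finset.mem_filter, Fintype.mem_piFinset]
  simp only [Finset.mem_range]

theorem ch_div {d : ℕ} (q : Site d) (ε : Fin d → Bool) (i : Fin d) : ch q ε i / 2 = q i := by
  unfold ch; split_ifs <;> omega

theorem ch_mem {d : ℕ} (J ℓ m : ℕ) (k q : Site d) (hlm : ℓ + 1 ≤ m) (hmJ : m ≤ J)
    (ε : Fin d → Bool) : ch q ε ∈ cells J ℓ m k ↔ q ∈ cells J (ℓ + 1) m k := by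
  rw [mem_cells, mem_cells]
  obtain ⟨a, ha⟩ : ∃ a, J - ℓ = a + 1 ∧ J - (ℓ + 1) = a := ⟨J - (ℓ + 1), by omega, rfl⟩
  obtain ⟨b, hb⟩ : ∃ b, m - ℓ = b + 1 ∧ m - (ℓ + 1) = b := ⟨m - (ℓ + 1), by omega, rfl⟩
  rw [ha.1, ha.2, hb.1, hb.2]
  have e1 : ∀ i, (ch q ε i < 2 ^ (a + 1) ↔ q i < 2 ^ a) := by
    intro i
    unfold ch
    rw [pow_succ]
    split_ifs <;> omega
  have e2 : ∀ i, ch q ε i / 2 ^ (b + 1) = q i / 2 ^ b := by
    intro i
    rw [pow_succ', ← Nat.div_div_eq_div_mul, ch_div]
  constructor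
  · rintro ⟨h1, h2⟩
    exact ⟨fun i => (e1 i).mp (h1 i), fun i => by rw [← e2 i]; exact h2 i⟩
  · rintro ⟨h1, h2⟩
    exact ⟨fun i => (e1 i).mpr (h1 i), fun i => by rw [e2 i]; exact h2 i⟩

theorem sum_cells {d : ℕ} (J ℓ m : ℕ) (k : Site d) (hlm : ℓ + 1 ≤ m) (hmJ : m ≤ J)
    (F : Site d → ℝ) :
    ∑ q' ∈ cells J ℓ m k, F q' = ∑ q ∈ cells J (ℓ + 1) m k, ∑ ε : Fin d → Bool, F (ch q ε) := by
  rw [← Finset.sum_product']
  symm
  refine Finset.sum_nbij' (fun p => ch p.1 p.2)
    (fun q' => ((fun i => q' i / 2), fun i => decide (q' i % 2 = 1))) ?_ ?_ ?_ ?_ ?_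
  · rintro ⟨q, ε⟩ hp
    rw [Finset.mem_product] at hp
    exact (ch_mem J ℓ m k q hlm hmJ ε).mpr hp.1
  · intro q' hq'
    rw [Finset.mem_product]
    refine ⟨?_, Finset.mem_univ _⟩
    have hch : ch (fun i => q' i / 2) (fun i => decide (q' i % 2 = 1)) = q' := by
      funext i
      unfold ch
      simp only [decide_eq_true_eq]
      split_ifs <;> omega
    show (fun i => q' i / 2) ∈ cells J (ℓ + 1) m k
    rw [← ch_mem J ℓ m k _ hlm hmJ (fun i => decide (q' i % 2 = 1)), hch]
    exact hq'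
  · rintro ⟨q, ε⟩ _
    refine Prod.ext ?_ ?_
    · funext i; exact ch_div q ε i
    · funext i
      show decide (ch q ε i % 2 = 1) = ε i
      unfold ch
      cases hε : ε i with
      | true => simp
      | false => simp
  · intro q' _
    funext i
    show ch (fun i => q' i / 2) (fun i => decide (q' i % 2 = 1)) i = q' i
    unfold ch
    simp only [decide_eq_true_eq]
    split_ifs <;> omega
  · rintro ⟨q, ε⟩ _; rfl

theorem sx_ch {d : ℕ} (q : Site d) (ε : Fin d → Bool) (i : Fin d) (h : ε i = false) :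
    sx (ch q ε) i = ch q (Function.update ε i true) := by
  funext j
  unfold sx ch
  rw [Pi.add_apply]
  by_cases hj : j = i
  · subst hj
    rw [Pi.single_eq_same, Function.update_self, h]
    simp
  · rw [Pi.single_eq_of_ne hj, Function.update_of_ne hj]
    simp

theorem sum_cube_le_tv {d : ℕ} (J ℓ m : ℕ) (k : Site d) (hlm : ℓ + 1 ≤ m) (hmJ : m ≤ J)
    (g : Site d → ℝ) :
    ∑ q ∈ cells J (ℓ + 1) m k, cubeV (fun ε => g (ch q ε)) ≤ tv J ℓ m k g := by
  classical
  unfold tv
  rw [sum_cells J ℓ m k hlm hmJ]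
  refine Finset.sum_le_sum fun q hq => ?_
  unfold cubeV
  refine Finset.sum_le_sum fun ε _ => ?_
  refine Finset.sum_le_sum fun i _ => ?_
  unfold eg
  by_cases h : ε i = false
  · rw [if_pos h]
    have hm : sx (ch q ε) i ∈ cells J ℓ m k := by
      rw [sx_ch q ε i h]
      exact (ch_mem J ℓ m k q hlm hmJ _).mpr hq
    rw [if_pos hm, sx_ch q ε i h]
  · rw [if_neg h]
    split_ifs
    · exact abs_nonneg _
    · exact le_refl _

theorem rep_succ {d : ℕ} (B : Finset (Site d)) (ℓ : ℕ) (q : Site d) :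
    ∃ ε : Fin d → Bool, rep B (ℓ + 1) q = rep B ℓ (ch q ε) := by
  classical
  by_cases h : bd B ℓ (ch q fun _ => false)
  · exact ⟨fun i => decide (i.val = 0), by simp only [rep]; rw [if_pos h]⟩
  · exact ⟨fun _ => false, by simp only [rep]; rw [if_neg h]⟩

theorem t_DT3 : S_DT3 := by
  intro d B w J ℓ m k hd hlm hmJ hk
  set g : Site d → ℝ := fun q => w (rep B ℓ q) with hg
  set g' : Site d → ℝ := fun q => w (rep B (ℓ + 1) q) with hg'
  have hS := sum_cells J ℓ m k hlm hmJ g
  have hcard : (Fintype.card (Fin d → Bool) : ℝ) = 2 ^ d := by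
    rw [Fintype.card_fun, Fintype.card_bool, Fintype.card_fin]; push_cast; rfl
  obtain ⟨b, hb1, hb2⟩ : ∃ b, m - ℓ = b + 1 ∧ m - ℓ - 1 = b := ⟨m - ℓ - 1, by omega, rfl⟩
  have hb3 : m - (ℓ + 1) = b := by omega
  unfold avc
  rw [hb3, hb1]
  have hb4 : b + 1 - 1 = b := by omega
  rw [hb4, hS]
  have hpow : (2 : ℝ) ^ (d * (b + 1)) = 2 ^ (d * b) * 2 ^ d := by
    rw [← pow_add]; congr 1
  have hp1 : (0 : ℝ) < 2 ^ (d * b) := by positivity
  have hp2 : (0 : ℝ) < 2 ^ d := by positivity
  have key : |∑ q ∈ cells J (ℓ + 1) m k, ∑ ε : Fin d → Bool, g (ch q ε) -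
      2 ^ d * ∑ q ∈ cells J (ℓ + 1) m k, g' q| ≤ 2 ^ d * tv J ℓ m k g := by
    rw [Finset.mul_sum, ← Finset.sum_sub_distrib]
    refine (Finset.abs_sum_le_sum_abs _ _).trans ?_
    refine le_trans ?_ (mul_le_mul_of_nonneg_left (sum_cube_le_tv J ℓ m k hlm hmJ g) hp2.le)
    rw [Finset.mul_sum]
    refine Finset.sum_le_sum fun q _ => ?_
    obtain ⟨ε0, h0⟩ := rep_succ B ℓ q
    have hgq : g' q = g (ch q ε0) := by simp only [hg, hg', h0]
    have hconst : 2 ^ d * g' q = ∑ ε : Fin d → Bool, g (ch q ε0) := by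
      rw [Finset.sum_const, Finset.card_univ, nsmul_eq_mul, hcard, hgq]
    rw [hconst, ← Finset.sum_sub_distrib]
    refine (Finset.abs_sum_le_sum_abs _ _).trans ?_
    have hV : ∀ ε : Fin d → Bool, |g (ch q ε) - g (ch q ε0)| ≤ cubeV (fun ε => g (ch q ε)) :=
      fun ε => cube_bound (fun ε => g (ch q ε)) ε ε0
    refine (Finset.sum_le_sum fun ε _ => hV ε).trans ?_
    rw [Finset.sum_const, Finset.card_univ, nsmul_eq_mul, hcard]
  have hrw : (∑ q ∈ cells J (ℓ + 1) m k, ∑ ε : Fin d → Bool, g (ch q ε)) / 2 ^ (d * (b + 1)) -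
      (∑ q ∈ cells J (ℓ + 1) m k, g' q) / 2 ^ (d * b) =
      (∑ q ∈ cells J (ℓ + 1) m k, ∑ ε : Fin d → Bool, g (ch q ε) -
        2 ^ d * ∑ q ∈ cells J (ℓ + 1) m k, g' q) / (2 ^ (d * b) * 2 ^ d) := by
    rw [hpow]; field_simp
  rw [hrw, abs_div, abs_of_pos (mul_pos hp1 hp2), div_le_div_iff₀ (mul_pos hp1 hp2) hp1]
  have := mul_le_mul_of_nonneg_right key hp1.le
  linarith [this]

end Pool.Agent.H448.LF
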